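import Pool.Agent.Helper31_UL3.TOP
import Pool.Agent.UL4.Stmts

/-!
# Squad UL3: halves of centrally symmetric bodies
-/

set_option autoImplicit false

namespace Pool.Agent.UL3.H31

open MeasureTheory Set Pool.Agent.UL3 Pool.Agent.UL4

/-- a half of a centrally symmetric body packs at least as dense as the body does by a lattice -/
theorem half_of (hL : LpgStmt) {D K : Set E3} {c m : E3} {δ : ℝ} (hδ : 0 < δ) (hD : IsCompact D)
    (hDc : Convex ℝ D) (hDi : (interior D).Nonempty) (hDs : ∀ x ∈ D, (2 : ℝ) • c - x ∈ D) (hm : m ≠ 0)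
    (hK : K = {x | x ∈ D ∧ 0 ≤ inner ℝ (x - c) m}) (v : Fin 3 → E3) (hv : 0 < dt v)
    (hd : ∀ n : Fin 3 → ℤ, n ≠ 0 → Disjoint (interior D)
      ((fun x => x + (2 : ℝ) • ∑ i, (n i : ℝ) • v i) '' interior D))
    (hdt : 8 * δ * dt v ≤ V D) :
    ∃ f : ℕ → (E3 ≃ᵢ E3),
      (∀ i j : ℕ, i ≠ j → Disjoint (interior ((f i) '' K)) (interior ((f j) '' K))) ∧
      ENNReal.ofReal δ ≤ Filter.limsup
        (fun R : ℝ => volume ((⋃ i : ℕ, (f i) '' K) ∩ Metric.ball (0 : E3) R) /
          volume (Metric.ball (0 : E3) R)) Filter.atTop := by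
  have hclosed : IsClosed {x : E3 | 0 ≤ inner ℝ (x - c) m} :=
    isClosed_le continuous_const (by fun_prop)
  have hK' : K = D ∩ {x : E3 | 0 ≤ inner ℝ (x - c) m} := by
    rw [hK]; rfl
  have hKD : K ⊆ D := by
    rw [hK']
    exact inter_subset_left
  have hKc : IsCompact K := by
    rw [hK']
    exact hD.inter_right hclosed
  have hhalf : Convex ℝ {x : E3 | 0 ≤ inner ℝ (x - c) m} := by
    intro x hx y hy a b ha hb hab
    simp only [mem_setOf_eq] at hx hy ⊢
    have h1 : a • x + b • y - c = a • (x - c) + b • (y - c) := by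
      have : c = (a + b) • c := by rw [hab, one_smul]
      nth_rewrite 1 [this]
      module
    rw [h1, inner_add_left, inner_smul_left, inner_smul_left]
    simp only [conj_trivial]
    positivity
  have hKv : Convex ℝ K := by
    rw [hK']
    exact hDc.inter hhalf
  have hint : interior K ⊆ interior D := interior_mono hKD
  -- the interior of `D` is symmetric
  have hsym : ∀ x ∈ interior D, (2 : ℝ) • c - x ∈ interior D := by
    intro x hx
    have h1 : (fun y => (2 : ℝ) • c - y) ⁻¹' D = D := by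
      ext y
      constructor
      · intro hy
        have := hDs _ hy
        simpa using this
      · intro hy
        exact hDs y hy
    have h2 : (fun y => (2 : ℝ) • c - y) ⁻¹' interior D ⊆ interior D := by
      have h3 : IsOpen ((fun y => (2 : ℝ) • c - y) ⁻¹' interior D) :=
        isOpen_interior.preimage (by fun_prop)
      refine interior_maximal ?_ h3
      intro y hy
      have h4 : y ∈ (fun y => (2 : ℝ) • c - y) ⁻¹' D := preimage_mono interior_subset hy
      rwa [h1] at h4
    apply h2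
    show (2 : ℝ) • c - ((2 : ℝ) • c - x) ∈ interior D
    rwa [sub_sub_cancel]
  have hmn : 0 < ‖m‖ := norm_pos_iff.2 hm
  -- the half has interior points
  have hi : (interior K).Nonempty := by
    obtain ⟨x, hx⟩ := hDi
    -- an interior point of `D` strictly on the right side
    have hcD : c ∈ interior D := by
      have h2 := hDc.combo_interior_self_mem_interior hx (interior_subset (hsym x hx))
        (a := 1 / 2) (b := 1 / 2) (by norm_num) (by norm_num) (by norm_num)
      have h3 : (1 / 2 : ℝ) • x + (1 / 2 : ℝ) • ((2 : ℝ) • c - x) = c := by module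
      rwa [h3] at h2
    rw [mem_interior_iff_mem_nhds, Metric.mem_nhds_iff] at hcD
    obtain ⟨ε, hε, h2⟩ := hcD
    refine ⟨c + (ε / (2 * ‖m‖)) • m, ?_⟩
    have h3 : c + (ε / (2 * ‖m‖)) • m ∈ Metric.ball c ε := by
      rw [Metric.mem_ball, dist_eq_norm]
      have : c + (ε / (2 * ‖m‖)) • m - c = (ε / (2 * ‖m‖)) • m := by abel
      rw [this, norm_smul, Real.norm_of_nonneg (by positivity)]
      have : ε / (2 * ‖m‖) * ‖m‖ = ε / 2 := by
        field_simp
      rw [this]
      linarith
    have h4 : IsOpen (Metric.ball c ε ∩ {x : E3 | 0 < inner ℝ (x - c) m}) :=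
      Metric.isOpen_ball.inter (isOpen_lt continuous_const (by fun_prop))
    refine interior_maximal ?_ h4 ⟨h3, ?_⟩
    · rintro y ⟨hy1, hy2⟩
      rw [hK]
      exact ⟨h2 hy1, le_of_lt hy2⟩
    · show 0 < inner ℝ (c + (ε / (2 * ‖m‖)) • m - c) m
      have h6 : c + (ε / (2 * ‖m‖)) • m - c = (ε / (2 * ‖m‖)) • m := by abel
      rw [h6, inner_smul_left, real_inner_self_eq_norm_sq]
      simp only [conj_trivial]
      positivity
  have hz : ∀ n : Fin 3 → ℤ, c + ∑ i, (n i : ℝ) • v i ∉ interior K := by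
    intro n hn
    by_cases h0 : n = 0
    · subst h0
      have h1 : c ∈ interior K := by simpa using hn
      -- points on the wrong side near `c`
      rw [mem_interior_iff_mem_nhds, Metric.mem_nhds_iff] at h1
      obtain ⟨ε, hε, h2⟩ := h1
      have h3 : c - (ε / (2 * ‖m‖)) • m ∈ Metric.ball c ε := by
        rw [Metric.mem_ball, dist_eq_norm]
        have : c - (ε / (2 * ‖m‖)) • m - c = -((ε / (2 * ‖m‖)) • m) := by abel
        rw [this, norm_neg, norm_smul, Real.norm_of_nonneg (by positivity)]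
        have : ε / (2 * ‖m‖) * ‖m‖ = ε / 2 := by
          field_simp
        rw [this]
        linarith
      have h4 := h2 h3
      rw [hK] at h4
      have h5 := h4.2
      have h6 : c - (ε / (2 * ‖m‖)) • m - c = -((ε / (2 * ‖m‖)) • m) := by abel
      rw [h6, inner_neg_left, inner_smul_left, real_inner_self_eq_norm_sq] at h5
      simp only [conj_trivial] at h5
      have h7 : 0 < ε / (2 * ‖m‖) * ‖m‖ ^ 2 := by positivity
      linarith
    · have h1 : c + ∑ i, (n i : ℝ) • v i ∈ interior D := hint hn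
      have h2 := hsym _ h1
      refine Set.disjoint_left.1 (hd n h0) h1 ⟨_, h2, ?_⟩
      show (2 : ℝ) • c - (c + ∑ i, (n i : ℝ) • v i) + (2 : ℝ) • ∑ i, (n i : ℝ) • v i = _
      module
  have hdK : ∀ n : Fin 3 → ℤ, n ≠ 0 → Disjoint (interior K)
      ((fun x => x + (2 : ℝ) • ∑ i, (n i : ℝ) • v i) '' interior K) := fun n hn =>
    (hd n hn).mono hint (image_mono hint)
  obtain ⟨f, -, hf2, hf3⟩ := hL K v c hKc hKv hi hv hdK hz
  -- the volume
  have hvol : V D ≤ 2 * V K := by
    have hsub : D ⊆ K ∪ (fun y => (2 : ℝ) • c - y) '' K := by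
      intro x hx
      by_cases h : 0 ≤ inner ℝ (x - c) m
      · left
        rw [hK]
        exact ⟨hx, h⟩
      · right
        refine ⟨(2 : ℝ) • c - x, ?_, ?_⟩
        · rw [hK]
          refine ⟨hDs x hx, ?_⟩
          have h1 : (2 : ℝ) • c - x - c = -(x - c) := by module
          rw [h1, inner_neg_left]
          linarith [not_le.1 h]
        · show (2 : ℝ) • c - ((2 : ℝ) • c - x) = x
          rw [sub_sub_cancel]
    have hrefl : (volume : Measure E3) ((fun y => (2 : ℝ) • c - y) '' K) = volume K := by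
      have h0 : (fun y : E3 => (2 : ℝ) • c - y) '' K =
          (fun y : E3 => y + (2 : ℝ) • c) '' (Neg.neg '' K) := by
        rw [image_image]
        refine image_congr fun y _ => ?_
        abel
      rw [h0, image_add_right, measure_preimage_add_right, image_neg_eq_neg, Measure.measure_neg]
    have h1 : (volume : Measure E3) D ≤ volume K + volume K :=
      le_trans (measure_mono hsub) (le_trans (measure_union_le _ _) (by rw [hrefl]))
    have h2 : (volume : Measure E3) K ≠ ⊤ := hKc.measure_ne_top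
    unfold V
    rw [Measure.real, Measure.real]
    have h3 := ENNReal.toReal_mono (ENNReal.add_ne_top.2 ⟨h2, h2⟩) h1
    rw [ENNReal.toReal_add h2 h2] at h3
    linarith
  refine ⟨f, hf2, le_trans (ENNReal.ofReal_le_ofReal ?_) hf3⟩
  rw [le_div_iff₀ (by positivity)]
  nlinarith [hdt, hvol]

/-- `top` and the halves -/
theorem top2 (hG : GodStmt) (hL : LpdStmt) (hA : AdjStmt) (hLg : LpgStmt) :
    ∀ (D : Set (EuclideanSpace ℝ (Fin 3))) (c : EuclideanSpace ℝ (Fin 3)),
      IsCompact D → Convex ℝ D → (interior D).Nonempty → (∀ x ∈ D, (2 : ℝ) • c - x ∈ D) →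
      (∃ v : Fin 3 → EuclideanSpace ℝ (Fin 3),
        0 < |(Matrix.of fun i j => v i j).det| ∧
          (∀ n : Fin 3 → ℤ, n ≠ 0 → Disjoint (interior D)
            ((fun x => x + ∑ i, (n i : ℝ) • v i) '' interior D)) ∧
          1 / Real.sqrt 3 * |(Matrix.of fun i j => v i j).det| ≤
            (volume : Measure (EuclideanSpace ℝ (Fin 3))).real D) ∧
      ∀ K : Set (EuclideanSpace ℝ (Fin 3)),
        (K = D ∨ ∃ m : EuclideanSpace ℝ (Fin 3), m ≠ 0 ∧
          K = {x | x ∈ D ∧ 0 ≤ inner ℝ (x - c) m}) →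
        ∃ f : ℕ → (EuclideanSpace ℝ (Fin 3) ≃ᵢ EuclideanSpace ℝ (Fin 3)),
          (∀ i j : ℕ, i ≠ j →
            Disjoint (interior ((f i) '' K)) (interior ((f j) '' K))) ∧
          ENNReal.ofReal (1 / Real.sqrt 3) ≤
            Filter.limsup
              (fun R : ℝ =>
                volume ((⋃ i : ℕ, (f i) '' K) ∩
                    Metric.ball (0 : EuclideanSpace ℝ (Fin 3)) R) /
                  volume (Metric.ball (0 : EuclideanSpace ℝ (Fin 3)) R))
              Filter.atTop := by
  intro D c hD hDc hDi hDs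
  obtain ⟨v, ⟨hv0, hv1, hv2⟩, f, hf1, hf2⟩ := top hG hL hA D c hD hDc hDi hDs
  refine ⟨⟨v, hv0, hv1, hv2⟩, ?_⟩
  rintro K (rfl | ⟨m, hm, hK⟩)
  · exact ⟨f, hf1, hf2⟩
  · -- half of the lattice vectors
    set w : Fin 3 → E3 := fun i => (1 / 2 : ℝ) • v i with hw
    have hdw : dt w = dt v / 8 := by
      unfold dt
      have h2 : (Matrix.of fun i j => w i j) = (1 / 2 : ℝ) • (Matrix.of fun i j => v i j) := by
        ext i j
        simp [hw]
      rw [h2, Matrix.det_smul, abs_mul, Fintype.card_fin]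
      have h6 : |(1 / 2 : ℝ) ^ 3| = 1 / 8 := by norm_num
      rw [h6]
      ring
    have hv0' : 0 < dt v := hv0
    have hw0 : 0 < dt w := by rw [hdw]; positivity
    have hsum : ∀ n : Fin 3 → ℤ, (2 : ℝ) • ∑ i, (n i : ℝ) • w i = ∑ i, (n i : ℝ) • v i := by
      intro n
      rw [Finset.smul_sum]
      refine Finset.sum_congr rfl fun i _ => ?_
      rw [hw]
      module
    have h3 : 0 < Real.sqrt 3 := Real.sqrt_pos.2 (by norm_num)
    refine half_of hLg (by positivity) hD hDc hDi hDs hm hK w hw0 ?_ ?_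
    · intro n hn
      have h1 := hv1 n hn
      rw [← hsum n] at h1
      exact h1
    · rw [hdw]
      have h4 : 1 / Real.sqrt 3 * dt v ≤ V D := hv2
      calc 8 * (1 / Real.sqrt 3) * (dt v / 8) = 1 / Real.sqrt 3 * dt v := by ring
        _ ≤ V D := h4

end Pool.Agent.UL3.H31
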