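import Pool.Agent.UL3.Stmts

/-!
# Squad UL3: the theorem from GOD, LPD, ADJ
-/

set_option autoImplicit false

namespace Pool.Agent.UL3.H31

open MeasureTheory Set

theorem top (hG : GodStmt) (hL : LpdStmt) (hA : AdjStmt) :
    ∀ (K : Set (EuclideanSpace ℝ (Fin 3))) (c : EuclideanSpace ℝ (Fin 3)),
      IsCompact K → Convex ℝ K → (interior K).Nonempty → (∀ x ∈ K, (2 : ℝ) • c - x ∈ K) →
      ∃ v : Fin 3 → EuclideanSpace ℝ (Fin 3),
        (0 < |(Matrix.of fun i j => v i j).det| ∧
          (∀ n : Fin 3 → ℤ, n ≠ 0 → Disjoint (interior K)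
            ((fun x => x + ∑ i, (n i : ℝ) • v i) '' interior K)) ∧
          1 / Real.sqrt 3 * |(Matrix.of fun i j => v i j).det| ≤
            (volume : Measure (EuclideanSpace ℝ (Fin 3))).real K) ∧
        ∃ f : ℕ → (EuclideanSpace ℝ (Fin 3) ≃ᵢ EuclideanSpace ℝ (Fin 3)),
          (∀ i j : ℕ, i ≠ j →
            Disjoint (interior ((f i) '' K)) (interior ((f j) '' K))) ∧
          ENNReal.ofReal (1 / Real.sqrt 3) ≤
            Filter.limsup
              (fun R : ℝ =>
                volume ((⋃ i : ℕ, (f i) '' K) ∩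
                    Metric.ball (0 : EuclideanSpace ℝ (Fin 3)) R) /
                  volume (Metric.ball (0 : EuclideanSpace ℝ (Fin 3)) R))
              Filter.atTop := by
  intro K c hK hc hi hs
  -- the translate with centre 0
  set K' : Set E3 := (fun x => x + -c) '' K with hK'
  have himg : ∀ S : Set E3, (fun x => x + -c) '' S = (Homeomorph.addRight (-c)) '' S := fun S => rfl
  have hint : interior K' = (fun x => x + -c) '' interior K := by
    rw [hK', himg, himg, Homeomorph.image_interior]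
  have hSB : SB K' := by
    refine ⟨?_, ?_, ?_, ?_⟩
    · exact hK.image (by fun_prop)
    · have := hc.translate (-c)
      have h1 : (fun x => -c + x) '' K = K' := by
        rw [hK']
        congr 1
        funext x
        exact add_comm _ _
      rwa [h1] at this
    · rintro x ⟨y, hy, rfl⟩
      refine ⟨(2 : ℝ) • c - y, hs y hy, ?_⟩
      show (2 : ℝ) • c - y + -c = -(y + -c)
      module
    · rw [hint]
      exact hi.image _
  have hV : V K' = V K := by
    unfold V
    rw [hK']
    show (volume : Measure E3).real ((fun x => x + -c) '' K) = _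
    rw [Measure.real, Measure.real, Set.image_add_right, measure_preimage_add_right]
  obtain ⟨v, hv0, hv1, hv2⟩ := hG K' hSB
  rw [hV] at hv2
  have hdis' := hA K' v hSB hv1
  have hdis : ∀ n : Fin 3 → ℤ, n ≠ 0 → Disjoint (interior K)
      ((fun x => x + (2 : ℝ) • ∑ i, (n i : ℝ) • v i) '' interior K) := by
    intro n hn
    have h1 := hdis' n hn
    rw [hint] at h1
    rw [Set.disjoint_left] at h1 ⊢
    rintro x hx ⟨y, hy, hxy⟩
    refine h1 ⟨x, hx, rfl⟩ ⟨y + -c, ⟨y, hy, rfl⟩, ?_⟩
    simp only at hxy ⊢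
    rw [← hxy]
    abel
  obtain ⟨f, hf1, hf2⟩ := hL K v hK hc hi hv0 hdis
  have h3 : 0 < Real.sqrt 3 := Real.sqrt_pos.2 (by norm_num)
  have h3' : Real.sqrt 3 * Real.sqrt 3 = 3 := Real.mul_self_sqrt (by norm_num)
  have hden : 1 / Real.sqrt 3 ≤ V K / (8 * dt v) := by
    rw [div_le_div_iff₀ h3 (by positivity)]
    nlinarith [hv2]
  refine ⟨fun i => (2 : ℝ) • v i, ⟨?_, ?_, ?_⟩, f, hf1, ?_⟩
  · have h2 : (Matrix.of fun i j => ((2 : ℝ) • v i) j) = (2 : ℝ) • (Matrix.of fun i j => v i j) := by
      ext i j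
      simp
    rw [h2, Matrix.det_smul, abs_mul]
    have : 0 < |(Matrix.of fun i j => v i j).det| := hv0
    positivity
  · intro n hn
    have h1 := hdis n hn
    have h2 : (2 : ℝ) • ∑ i, (n i : ℝ) • v i = ∑ i, (n i : ℝ) • (2 : ℝ) • v i := by
      rw [Finset.smul_sum]
      refine Finset.sum_congr rfl fun i _ => ?_
      rw [smul_comm]
    rwa [h2] at h1
  · have h2 : (Matrix.of fun i j => ((2 : ℝ) • v i) j) = (2 : ℝ) • (Matrix.of fun i j => v i j) := by
      ext i j
      simp
    rw [h2, Matrix.det_smul, abs_mul, Fintype.card_fin]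
    have h5 : |(Matrix.of fun i j => v i j).det| = dt v := rfl
    have h6 : |(2 : ℝ) ^ 3| = 8 := by norm_num
    rw [h5, h6]
    have h7 : 1 / Real.sqrt 3 * (8 * dt v) ≤ V K := by
      rw [div_mul_eq_mul_div, div_le_iff₀ h3]
      nlinarith [hv2]
    exact h7
  · exact le_trans (ENNReal.ofReal_le_ofReal hden) hf2

end Pool.Agent.UL3.H31
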